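import Pool.Agent.Helper77.SUBK.SheetP

/-!
Project SUBK, row HLOWM: lower bound for the height of `h` in the nondegenerate case.
-/

set_option autoImplicit false

namespace Pool.Agent.Helper26.SUBK

open Finset Matrix Pool.Agent.Helper70.SUB Pool.Agent.Helper77.SUBK

theorem denM {M : Type} [Field M] [NumberField M] (x : M) :
    ∃ D : ℕ, 1 ≤ D ∧ IsIntegral ℤ ((D : M) * x) := by
  have h : IsAlgebraic ℤ x :=
    (IsFractionRing.isAlgebraic_iff ℤ ℚ M).2 (Algebra.IsAlgebraic.isAlgebraic x)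
  obtain ⟨y, hy, hi⟩ := h.exists_integral_multiple
  refine ⟨y.natAbs, Nat.one_le_iff_ne_zero.2 (Int.natAbs_ne_zero.2 hy), ?_⟩
  rcases Int.natAbs_eq y with h' | h'
  · rw [h'] at hi
    simpa using hi
  · rw [h'] at hi
    have := hi.neg
    simpa using this

theorem natInt {M : Type} [Field M] (d : ℕ) : IsIntegral ℤ (d : M) := by
  have : IsIntegral ℤ ((d : ℤ) : M) := isIntegral_algebraMap (R := ℤ) (A := M) (x := (d : ℤ))
  simpa using this

/-- common denominators -/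
theorem clrM {M : Type} [Field M] [NumberField M] {n : ℕ} (A : Matrix (Fin n) (Fin n) M) :
    ∃ D : ℕ, 1 ≤ D ∧ ∀ i k, IsIntegral ℤ ((D : M) * A i k) := by
  classical
  choose d hd hi using fun x : Fin n × Fin n => denM (A x.1 x.2)
  refine ⟨∏ x : Fin n × Fin n, d x, Nat.one_le_iff_ne_zero.2
    (Finset.prod_ne_zero_iff.2 fun x _ => by have := hd x; omega), ?_⟩
  intro i k
  obtain ⟨c, hc⟩ : d (i, k) ∣ ∏ x : Fin n × Fin n, d x :=
    Finset.dvd_prod_of_mem d (Finset.mem_univ (i, k))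
  rw [hc]
  have h1 := (natInt (M := M) c).mul (hi (i, k))
  have h2 : (c : M) * ((d (i, k) : M) * A (i, k).1 (i, k).2)
      = ((d (i, k) * c : ℕ) : M) * A i k := by
    push_cast
    ring
  rwa [h2] at h1

/-- Liouville's lower bound for the value of a form -/
theorem liouM (hLIOM : ST_LIOM) {M : Type} [Field M] [NumberField M] {n : ℕ} (S : Finset ℕ)
    (P : PF S M) (hS : ∀ p ∈ S, p.Prime) (A : Option ℕ → Matrix (Fin n) (Fin n) M) :
    ∃ E : ℝ, 1 ≤ E ∧ ∀ v ∈ plc S, ∀ (h : Fin n → ℤ) (R : ℝ), 1 ≤ R → (∀ i, |(h i : ℝ)| ≤ R) →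
      ∀ i, (A v).mulVec (cM h) i ≠ 0 →
        1 / (E * R) ^ (Module.finrank ℚ M) ≤ P.nv v ((A v).mulVec (cM h) i) := by
  classical
  choose D hD hI using fun v => clrM (A v)
  let H : Option ℕ → ℝ := fun v => 1 + ∑ φ : M →+* ℂ, ∑ i, ∑ k, ‖φ (A v i k)‖
  have hH : ∀ v, 1 ≤ H v := fun v => by
    have : 0 ≤ ∑ φ : M →+* ℂ, ∑ i, ∑ k, ‖φ (A v i k)‖ :=
      Finset.sum_nonneg fun φ _ => Finset.sum_nonneg fun i _ =>
        Finset.sum_nonneg fun k _ => norm_nonneg _
    simp only [H]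
    linarith
  have he : ∀ v, 0 ≤ (D v : ℝ) * H v := fun v =>
    mul_nonneg (Nat.cast_nonneg _) (by linarith [hH v])
  refine ⟨1 + ∑ v ∈ plc S, (D v : ℝ) * H v, ?_, ?_⟩
  · have : 0 ≤ ∑ v ∈ plc S, (D v : ℝ) * H v := Finset.sum_nonneg fun v _ => he v
    linarith
  intro v hv h R hR hh i hne
  set E : ℝ := 1 + ∑ v ∈ plc S, (D v : ℝ) * H v
  have hE : (D v : ℝ) * H v ≤ E := by
    have := Finset.single_le_sum (f := fun v => (D v : ℝ) * H v) (fun v _ => he v) hv
    simp only [E]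
    linarith
  have hE1 : 1 ≤ E := by
    have : 0 ≤ ∑ v ∈ plc S, (D v : ℝ) * H v := Finset.sum_nonneg fun v _ => he v
    simp only [E]
    linarith
  set w : M := (A v).mulVec (cM h) i with hw
  have hwI : IsIntegral ℤ ((D v : M) * w) := by
    have h1 : (D v : M) * w = ∑ k, ((D v : M) * A v i k) * ((h k : ℤ) : M) := by
      simp only [hw, Matrix.mulVec, dotProduct, cM]
      rw [Finset.mul_sum]
      exact Finset.sum_congr rfl fun k _ => by ring
    rw [h1]
    refine IsIntegral.sum _ fun k _ => (hI v i k).mul ?_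
    exact isIntegral_algebraMap (R := ℤ) (A := M) (x := h k)
  have hHR : 1 ≤ H v * R := by nlinarith [hH v]
  have hφ : ∀ φ : M →+* ℂ, ‖φ w‖ ≤ H v * R := by
    intro φ
    have h1 : φ w = ∑ k, φ (A v i k) * ((h k : ℤ) : ℂ) := by
      simp only [hw, Matrix.mulVec, dotProduct, cM]
      rw [map_sum]
      exact Finset.sum_congr rfl fun k _ => by rw [map_mul, map_intCast]
    rw [h1]
    have h2 : ‖∑ k, φ (A v i k) * ((h k : ℤ) : ℂ)‖ ≤ ∑ k, ‖φ (A v i k)‖ * R := by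
      refine (norm_sum_le _ _).trans (Finset.sum_le_sum fun k _ => ?_)
      rw [norm_mul]
      refine mul_le_mul_of_nonneg_left ?_ (norm_nonneg _)
      have h3 : ‖((h k : ℤ) : ℂ)‖ = |(h k : ℝ)| := by
        rw [Complex.norm_intCast]
      rw [h3]
      exact hh k
    refine h2.trans ?_
    rw [← Finset.sum_mul]
    refine mul_le_mul_of_nonneg_right ?_ (by linarith)
    have h3 : ∑ k, ‖φ (A v i k)‖ ≤ ∑ i, ∑ k, ‖φ (A v i k)‖ :=
      Finset.single_le_sum (f := fun i => ∑ k, ‖φ (A v i k)‖)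
        (fun i _ => Finset.sum_nonneg fun k _ => norm_nonneg _) (Finset.mem_univ i)
    have h4 : ∑ i, ∑ k, ‖φ (A v i k)‖ ≤ ∑ φ : M →+* ℂ, ∑ i, ∑ k, ‖φ (A v i k)‖ :=
      Finset.single_le_sum (f := fun φ : M →+* ℂ => ∑ i, ∑ k, ‖φ (A v i k)‖)
        (fun φ _ => Finset.sum_nonneg fun i _ => Finset.sum_nonneg fun k _ => norm_nonneg _)
        (Finset.mem_univ φ)
    simp only [H]
    linarith
  have hL := hLIOM M S P w (D v) (H v * R) hS hne (hD v) hwI hφ hHR v hv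
  have hER : 0 < E * R := by nlinarith
  have h5 : (D v : ℝ) * (H v * R) ≤ E * R := by
    rw [← mul_assoc]
    exact mul_le_mul_of_nonneg_right hE (by linarith)
  have h6 : 0 ≤ (D v : ℝ) * (H v * R) :=
    mul_nonneg (Nat.cast_nonneg _) (by linarith)
  rw [div_le_iff₀ (pow_pos hER _)]
  calc (1 : ℝ) ≤ ((D v : ℝ) * (H v * R)) ^ (Module.finrank ℚ M) * P.nv v w := hL
    _ ≤ (E * R) ^ (Module.finrank ℚ M) * P.nv v w :=
        mul_le_mul_of_nonneg_right (pow_le_pow_left₀ h6 h5 _) (P.nn _ _)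
    _ = P.nv v w * (E * R) ^ (Module.finrank ℚ M) := mul_comm _ _

theorem HLOWM (hLIOM : ST_LIOM) : ST_HLOWM := by
  classical
  intro M _ _ S P k A C δ hk hS hA hC hδ
  obtain ⟨E0, hE01, hE0⟩ := liouM hLIOM S P hS (fun v => ((A v)⁻¹)ᵀ)
  set d : ℕ := Module.finrank ℚ M with hd
  have hdpos : 0 < d := Module.finrank_pos
  have hdr : (0 : ℝ) < d := by exact_mod_cast hdpos
  set E : ℝ := E0 ^ d with hEdef
  have hE1 : 1 ≤ E := one_le_pow₀ hE01
  set V : ℕ := (plc S).card with hV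
  have hVpos : 0 < V := by
    rw [hV]
    refine Finset.card_pos.2 ⟨none, ?_⟩
    simp [plc]
  set m : ℕ := (k + 1) * V with hm
  have hmpos : (0 : ℝ) < m := by
    have : 0 < m := Nat.mul_pos (Nat.succ_pos _) hVpos
    exact_mod_cast this
  have hk' : (1 : ℝ) ≤ k := by exact_mod_cast hk
  -- the exponent
  set τ : ℝ := k * δ / (2 * m) with hτ
  have hτpos : 0 < τ := by positivity
  set τ' : ℝ := τ / d with hτ'
  have hτ'pos : 0 < τ' := by positivity
  set G : ℝ := C ^ (k + 2) * E ^ m with hG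
  have hG1 : 1 ≤ G := by
    have := one_le_pow₀ hC (n := k + 2)
    have := one_le_pow₀ hE1 (n := m)
    simp only [hG]
    nlinarith
  have hκ : 0 < (k : ℝ) * δ / 2 := by positivity
  refine ⟨τ', (G + 1) ^ (1 / ((k : ℝ) * δ / 2)) + 1, hτ'pos, ?_⟩
  intro Q s h lam t hQ hs hlam hvol hgap hw ht hst hprod
  by_contra hcon
  push Not at hcon
  have hpow1 : (0 : ℝ) ≤ (G + 1) ^ (1 / ((k : ℝ) * δ / 2)) :=
    Real.rpow_nonneg (by linarith) _
  have hQ1 : 1 ≤ Q := by linarith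
  have hQpos : 0 < Q := by linarith
  have hQτ : 1 ≤ Q ^ τ := Real.one_le_rpow hQ1 hτpos.le
  have hQτpos : 0 < Q ^ τ := by linarith
  have hQτ' : 1 ≤ Q ^ τ' := Real.one_le_rpow hQ1 hτ'pos.le
  -- the scales
  have hsc : ∀ v ∈ plc S, ∀ i, s v i ≤ E * Q ^ τ * t v := by
    intro v hv i
    have h3 := hE0 v hv h (Q ^ τ') hQτ' (fun i => (hcon i).le) i (hw v hv i)
    have h4 := hst v hv i
    have h30 : (E0 * Q ^ τ') ^ d = E * Q ^ τ := by
      rw [mul_pow, ← Real.rpow_natCast (Q ^ τ') d, ← Real.rpow_mul hQpos.le]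
      congr 2
      rw [hτ']
      field_simp
    rw [h30] at h3
    have hEQ : 0 < E * Q ^ τ := by positivity
    have h5 : 1 / (E * Q ^ τ) * s v i ≤ t v :=
      (mul_le_mul_of_nonneg_right h3 (hs v hv i).le).trans h4
    have h6 : s v i = (E * Q ^ τ) * (1 / (E * Q ^ τ) * s v i) := by field_simp
    rw [h6]
    exact mul_le_mul_of_nonneg_left h5 hEQ.le
  set L : ℝ := lam (Fin.last k) with hL
  have hLpos : 0 < L := hlam _
  have hprodpos : 0 ≤ ∏ v ∈ plc S, t v := Finset.prod_nonneg fun v hv => (ht v hv).le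
  have h7 : ∏ v ∈ plc S, ∏ i, s v i ≤ (E * Q ^ τ) ^ m * (C / L) ^ (k + 1) := by
    calc ∏ v ∈ plc S, ∏ i, s v i ≤ ∏ v ∈ plc S, ∏ _i : Fin (k + 1), (E * Q ^ τ * t v) := by
          refine Finset.prod_le_prod (fun v hv => Finset.prod_nonneg fun i _ => (hs v hv i).le)
            fun v hv => Finset.prod_le_prod (fun i _ => (hs v hv i).le) fun i _ => hsc v hv i
      _ = ∏ v ∈ plc S, ((E * Q ^ τ) * t v) ^ (k + 1) := by simp
      _ = (∏ v ∈ plc S, ((E * Q ^ τ) * t v)) ^ (k + 1) := by rw [Finset.prod_pow]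
      _ = ((E * Q ^ τ) ^ V * ∏ v ∈ plc S, t v) ^ (k + 1) := by
          rw [Finset.prod_mul_distrib, Finset.prod_const]
      _ ≤ ((E * Q ^ τ) ^ V * (C / L)) ^ (k + 1) := by
          refine pow_le_pow_left₀ (by positivity) ?_ _
          exact mul_le_mul_of_nonneg_left hprod (by positivity)
      _ = (E * Q ^ τ) ^ m * (C / L) ^ (k + 1) := by
          rw [mul_pow, ← pow_mul, hm, mul_comm (k + 1) V]
  have h8 : ∏ l, lam l ≤ Q ^ (-(k * δ)) * L ^ (k + 1) := by
    rw [Fin.prod_univ_castSucc]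
    have h9 : ∏ l : Fin k, lam l.castSucc ≤ ∏ _l : Fin k, (Q ^ (-δ) * L) := by
      refine Finset.prod_le_prod (fun l _ => (hlam _).le) fun l _ => ?_
      exact hgap l.castSucc (by simp)
    rw [Finset.prod_const, Finset.card_univ, Fintype.card_fin, mul_pow, ← Real.rpow_natCast
      (Q ^ (-δ)) k, ← Real.rpow_mul hQpos.le] at h9
    have h10 : (-δ * (k : ℝ)) = -(k * δ) := by ring
    rw [h10] at h9
    calc (∏ l : Fin k, lam l.castSucc) * lam (Fin.last k)
        ≤ (Q ^ (-(k * δ)) * L ^ k) * L := mul_le_mul_of_nonneg_right h9 hLpos.le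
      _ = _ := by ring
  have h11 : 1 / C ≤ (E ^ m * C ^ (k + 1)) * (Q ^ ((k : ℝ) * δ / 2) * Q ^ (-(k * δ))) := by
    refine hvol.trans ?_
    calc (∏ v ∈ plc S, ∏ i, s v i) * ∏ l, lam l
        ≤ ((E * Q ^ τ) ^ m * (C / L) ^ (k + 1)) * (Q ^ (-(k * δ)) * L ^ (k + 1)) := by
          refine mul_le_mul h7 h8 (Finset.prod_nonneg fun l _ => (hlam l).le) ?_
          positivity
      _ = (E ^ m * C ^ (k + 1)) * ((Q ^ τ) ^ m * Q ^ (-(k * δ))) := by
          rw [mul_pow, div_pow]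
          field_simp
      _ = _ := by
          have h12 : (Q ^ τ) ^ m = Q ^ ((k : ℝ) * δ / 2) := by
            rw [← Real.rpow_natCast, ← Real.rpow_mul hQpos.le]
            congr 1
            rw [hτ]
            field_simp
          rw [h12]
  have h13 : Q ^ ((k : ℝ) * δ / 2) * Q ^ (-(k * δ)) = (Q ^ ((k : ℝ) * δ / 2))⁻¹ := by
    rw [← Real.rpow_add hQpos, ← Real.rpow_neg hQpos.le]
    congr 1
    ring
  rw [h13] at h11
  have hX : 0 < Q ^ ((k : ℝ) * δ / 2) := Real.rpow_pos_of_pos hQpos _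
  have h14 : Q ^ ((k : ℝ) * δ / 2) ≤ G := by
    have hCpos : 0 < C := by linarith
    have h15 := mul_le_mul_of_nonneg_left h11 (mul_pos hCpos hX).le
    have h16 : C * Q ^ ((k : ℝ) * δ / 2) * (1 / C) = Q ^ ((k : ℝ) * δ / 2) := by field_simp
    have h17 : C * Q ^ ((k : ℝ) * δ / 2) * (E ^ m * C ^ (k + 1) * (Q ^ ((k : ℝ) * δ / 2))⁻¹)
        = G := by
      rw [hG]
      field_simp
      ring
    rw [h16, h17] at h15
    exact h15
  have h18 : G + 1 ≤ Q ^ ((k : ℝ) * δ / 2) := by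
    have h19 : (G + 1) ^ (1 / ((k : ℝ) * δ / 2)) ≤ Q := by linarith
    have h20 := Real.rpow_le_rpow hpow1 h19 hκ.le
    rw [← Real.rpow_mul (by linarith : (0 : ℝ) ≤ G + 1), one_div_mul_cancel hκ.ne',
      Real.rpow_one] at h20
    exact h20
  linarith

end Pool.Agent.Helper26.SUBK
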