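import Pool.Agent.Helper77.SUBK.SheetP
import Pool.Agent.Helper15.SUB.LATP

/-!
Project SUBK, row LATPM: the lattice of the integral points of a `p`-adic box, coefficients in a
number field.
-/

set_option autoImplicit false

namespace Pool.Agent.Helper26.SUBK

open Pool.Agent.Helper70.SUB Pool.Agent.Helper77.SUBK Finset Matrix
open Pool.Agent.Helper15.SUB

/-- `LATP` with the explicit constant -/
theorem LATPx (hAV : ST_AV) (N : ℕ) (S : Finset ℕ) (A : Option ℕ → Matrix (Fin N) (Fin N) ℚ) (K : ℝ)
    (hS : ∀ p ∈ S, p.Prime) (hdet : ∀ v ∈ plc S, (A v).det ≠ 0) (hK : 1 ≤ K) (R : ℕ → ℝ)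
    (hR1 : ∀ p, 1 ≤ R p) (hRle : ∀ p ∈ S, ∀ i j, av (some p) ((A (some p))⁻¹ i j) ≤ R p)
    (s : Option ℕ → Fin N → ℝ) (hs : ∀ v ∈ plc S, ∀ i, 0 < s v i)
    (hsK : ∀ p ∈ S, ∀ i, s (some p) i ≤ K) :
    ∃ B : Matrix (Fin N) (Fin N) ℤ, B.det ≠ 0 ∧
    (∀ q : ℕ, q.Prime → (q : ℤ) ∣ B.det → q ∈ S) ∧
    (∀ p ∈ S, ∀ i k, av (some p) ((A (some p) * mQ B) i k) ≤ s (some p) i) ∧
    (∀ p ∈ S, ∀ k i, av (some p) (((A (some p) * mQ B)⁻¹) k i) * s (some p) i
      ≤ 1 + ∑ p ∈ S, K * p * R p) ∧
    (∀ x : Fin N → ℤ, (∀ p ∈ S, ∀ i, av (some p) ((A (some p)).mulVec (cv x) i)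
      ≤ s (some p) i) → ∃ z : Fin N → ℤ, x = B.mulVec z) := by
  classical
  obtain ⟨av_nn, av_zero, hAV3⟩ := hAV
  obtain ⟨av_pos, av_mul, av_add, av_ultra, av_int, av_low, pf1, pf2, av_sum⟩ := hAV3 S hS
  have hmem : ∀ p ∈ S, some p ∈ plc S := fun p hp => by
    simp only [plc, Finset.some_mem_insertNone]; exact hp
  have hsp : ∀ p ∈ S, ∀ i, 0 < s (some p) i := fun p hp i => hs _ (hmem p hp) i
  -- the lattice
  let L : Submodule ℤ (Fin N → ℤ) :=
    { carrier := {x | ∀ p ∈ S, ∀ i, av (some p) ((A (some p)).mulVec (cv x) i) ≤ s (some p) i}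
      add_mem' := by
        intro x y hx hy p hp i
        have h1 : (A (some p)).mulVec (cv (x + y)) i =
            (A (some p)).mulVec (cv x) i + (A (some p)).mulVec (cv y) i := by
          rw [← Pi.add_apply, ← Matrix.mulVec_add]
          congr 2
          funext j; simp [cv]
        rw [h1]
        exact (av_ultra p hp _ _).trans (max_le (hx p hp i) (hy p hp i))
      zero_mem' := by
        intro p hp i
        have h1 : (A (some p)).mulVec (cv (0 : Fin N → ℤ)) i = 0 := by
          simp [cv, Matrix.mulVec, dotProduct]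
        rw [h1, av_zero]
        exact (hsp p hp i).le
      smul_mem' := by
        intro c x hx p hp i
        have h1 : (A (some p)).mulVec (cv (c • x)) i = (c : ℚ) * (A (some p)).mulVec (cv x) i := by
          simp only [cv, Matrix.mulVec, dotProduct, Finset.mul_sum]
          refine Finset.sum_congr rfl fun k _ => ?_
          simp only [Pi.smul_apply, smul_eq_mul]
          push_cast; ring
        rw [h1, av_mul _ (hmem p hp)]
        calc av (some p) (c : ℚ) * av (some p) ((A (some p)).mulVec (cv x) i)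
            ≤ 1 * s (some p) i := mul_le_mul (av_int p hp c) (hx p hp i) (av_nn _ _) zero_le_one
          _ = _ := one_mul _ }
  have hLmem : ∀ x, x ∈ L ↔ ∀ p ∈ S, ∀ i, av (some p) ((A (some p)).mulVec (cv x) i) ≤
      s (some p) i := fun x => Iff.rfl
  obtain ⟨e, he⟩ := exists_pow_le (ℕ × Fin N) (S ×ˢ Finset.univ)
    (fun u => (∑ k, av (some u.1) (A (some u.1) u.2 k)) / s (some u.1) u.2) (by
      intro u hu
      rw [Finset.mem_product] at hu
      apply div_nonneg _ (hsp _ hu.1 _).le
      exact Finset.sum_nonneg fun k _ => av_nn _ _)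
  set m : ℤ := ∏ q ∈ S, (q : ℤ) ^ e with hm
  have hm0 : m ≠ 0 := by
    rw [hm]
    apply Finset.prod_ne_zero_iff.2
    intro q hq
    apply pow_ne_zero
    exact_mod_cast (hS q hq).ne_zero
  have hmL : ∀ x : Fin N → ℤ, m • x ∈ L := by
    intro x p hp i
    have h1 : (A (some p)).mulVec (cv (m • x)) i = (m : ℚ) * ∑ k, A (some p) i k * (x k : ℚ) := by
      simp only [cv, Matrix.mulVec, dotProduct, Finset.mul_sum]
      refine Finset.sum_congr rfl fun k _ => ?_
      simp only [Pi.smul_apply, smul_eq_mul]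
      push_cast; ring
    have hdv : (p : ℤ) ^ e ∣ m := Finset.dvd_prod_of_mem (fun q : ℕ => (q : ℤ) ^ e) hp
    have h2 : av (some p) (∑ k, A (some p) i k * (x k : ℚ)) ≤
        ∑ k, av (some p) (A (some p) i k) := by
      have h3 := av_sum (some p) (hmem p hp) (Fin N) Finset.univ
        (fun k => A (some p) i k * (x k : ℚ)) (∑ k, av (some p) (A (some p) i k))
        (Finset.sum_nonneg fun k _ => av_nn _ _) (by
          intro k _
          rw [av_mul _ (hmem p hp)]
          calc av (some p) (A (some p) i k) * av (some p) (x k : ℚ)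
              ≤ av (some p) (A (some p) i k) * 1 :=
                mul_le_mul_of_nonneg_left (av_int p hp _) (av_nn _ _)
            _ = av (some p) (A (some p) i k) := mul_one _
            _ ≤ _ := Finset.single_le_sum (f := fun k => av (some p) (A (some p) i k))
                (fun k _ => av_nn _ _) (Finset.mem_univ k))
      simpa using h3
    have h5 := he (p, i) (Finset.mem_product.2 ⟨hp, Finset.mem_univ _⟩)
    simp only at h5
    have hsq := hsp p hp i
    rw [h1, av_mul _ (hmem p hp)]
    calc av (some p) (m : ℚ) * av (some p) (∑ k, A (some p) i k * (x k : ℚ))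
        ≤ (1 / (2 : ℝ)) ^ e * ∑ k, av (some p) (A (some p) i k) := by
          apply mul_le_mul (av_dvd (hS p hp) e m hdv) h2 (av_nn _ _) (by positivity)
      _ = ((1 / (2 : ℝ)) ^ e * ((∑ k, av (some p) (A (some p) i k)) / s (some p) i)) *
          s (some p) i := by
          field_simp
      _ ≤ 1 * s (some p) i := mul_le_mul_of_nonneg_right h5 hsq.le
      _ = s (some p) i := one_mul _
  obtain ⟨B, hB0, hBm, hBL, hBx⟩ := exists_basis N L m hm0 hmL
  refine ⟨B, hB0, ?_, ?_, ?_, ?_⟩
  · intro q hq hqB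
    have hqq : Prime (q : ℤ) := Nat.prime_iff_prime_int.1 hq
    have h1 : (q : ℤ) ∣ m := hqq.dvd_of_dvd_pow (hqB.trans hBm)
    rw [hm, Prime.dvd_finsetProd_iff hqq] at h1
    obtain ⟨q', hq', hd⟩ := h1
    have h2 := hqq.dvd_of_dvd_pow hd
    have h3 : q ∣ q' := by exact_mod_cast h2
    rwa [(Nat.prime_dvd_prime_iff_eq hq (hS q' hq')).1 h3]
  · intro p hp i k
    have := hBL k p hp i
    have h1 : (A (some p) * mQ B) i k = (A (some p)).mulVec (cv fun i => B i k) i := by
      simp [Matrix.mul_apply, Matrix.mulVec, dotProduct, cv]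
    rw [h1]; exact this
  · intro p hp k i
    have hpP := hS p hp
    have hdp : (A (some p)).det ≠ 0 := hdet _ (hmem p hp)
    have hp2 : (2 : ℝ) ≤ p := by exact_mod_cast hpP.two_le
    have hsi := hsp p hp i
    have hRp := hR1 p
    -- the exponent
    set t : ℝ := min (s (some p) i) (1 / R p) with ht
    have ht0 : 0 < t := lt_min hsi (by positivity)
    have ht1 : t ≤ 1 := (min_le_right _ _).trans (by
      rw [div_le_one (by linarith)]; exact hRp)
    obtain ⟨f, hf1, hf2⟩ := exists_nat_pow_near_of_lt_one ht0 ht1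
      (by positivity : (0 : ℝ) < 1 / p) (by rw [div_lt_one (by linarith)]; linarith)
    have hpf : t ≤ p * (1 / (p : ℝ)) ^ (f + 1) := by
      calc t ≤ (1 / (p : ℝ)) ^ f := hf2
        _ = p * (1 / (p : ℝ)) ^ (f + 1) := by
          rw [pow_succ]; field_simp
    set P := (A (some p))⁻¹ with hP
    obtain ⟨n, x, hn, hx, hxq⟩ := exists_vec S hS (fun q => A (some q)) (fun q => s (some q))
      (fun q hq i => hsp q hq i) p hp (fun j => (p : ℚ) ^ (f + 1) * P j i) (by
        intro j
        rw [av_mul' hpP, av_pow' hpP, av_p hpP]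
        calc (1 / (p : ℝ)) ^ (f + 1) * av (some p) (P j i) ≤ (1 / R p) * R p := by
              apply mul_le_mul (hf1.le.trans (min_le_right _ _)) (hRle p hp j i) (av_nn _ _)
              positivity
          _ = 1 := by field_simp)
    have hAP : (A (some p)) * P = 1 := Matrix.mul_nonsing_inv _ (isUnit_iff_ne_zero.2 hdp)
    have hxP : cv x = fun j => (n : ℚ) * ((p : ℚ) ^ (f + 1) * P j i) := by
      funext j; exact hx j
    have hxL : x ∈ L := by
      intro q hq i'
      by_cases hqp : q = p
      · subst hqp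
        have h1 : (A (some q)).mulVec (cv x) i' =
            (n : ℚ) * (q : ℚ) ^ (f + 1) * ((A (some q)) * P) i' i := by
          rw [hxP]
          simp only [Matrix.mulVec, dotProduct, Matrix.mul_apply, Finset.mul_sum]
          refine Finset.sum_congr rfl fun k _ => ?_
          ring
        rw [h1, hAP]
        by_cases hii : i' = i
        · subst hii
          rw [Matrix.one_apply_eq, mul_one, av_mul' hpP, av_pow' hpP, av_p hpP,
            av_unit hpP n hn, one_mul]
          exact hf1.le.trans (min_le_left _ _)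
        · rw [Matrix.one_apply_ne hii, mul_zero, av_zero]
          exact (hsp q hq i').le
      · exact hxq q hq hqp i'
    obtain ⟨z, hz⟩ := hBx x hxL
    have hBdet : (mQ B).det ≠ 0 := by
      have : (mQ B).det = ((B.det : ℤ) : ℚ) := by
        rw [Int.cast_det]
      rw [this]; exact_mod_cast hB0
    have hBinv : (mQ B)⁻¹ * (mQ B) = 1 := Matrix.nonsing_inv_mul _ (isUnit_iff_ne_zero.2 hBdet)
    have hcz : cv x = (mQ B).mulVec (cv z) := by
      funext j
      have := congrFun hz j
      simp only [cv, this]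
      simp only [Matrix.mulVec, dotProduct, mQ, Matrix.map_apply]
      push_cast
      rfl
    have hzk : (z k : ℚ) = (n : ℚ) * (p : ℚ) ^ (f + 1) * ((A (some p) * mQ B)⁻¹ k i) := by
      have h1 : cv z = (mQ B)⁻¹.mulVec (cv x) := by
        rw [hcz, Matrix.mulVec_mulVec, hBinv, Matrix.one_mulVec]
      have h2 := congrFun h1 k
      rw [hxP] at h2
      simp only [cv] at h2
      rw [h2, Matrix.mul_inv_rev]
      simp only [Matrix.mulVec, dotProduct, Matrix.mul_apply, Finset.mul_sum]
      refine Finset.sum_congr rfl fun k _ => ?_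
      ring
    have hle : av (some p) ((z k : ℤ) : ℚ) ≤ 1 := av_int p hp (z k)
    rw [hzk, av_mul' hpP, av_mul' hpP, av_pow' hpP, av_p hpP, av_unit hpP n hn, one_mul] at hle
    set X := av (some p) ((A (some p) * mQ B)⁻¹ k i) with hX
    have hX0 : 0 ≤ X := av_nn _ _
    -- `t X ≤ p`
    have htX : t * X ≤ p := by
      calc t * X ≤ (p * (1 / (p : ℝ)) ^ (f + 1)) * X := mul_le_mul_of_nonneg_right hpf hX0
        _ = p * ((1 / (p : ℝ)) ^ (f + 1) * X) := by ring
        _ ≤ p * 1 := mul_le_mul_of_nonneg_left hle (by positivity)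
        _ = p := mul_one _
    -- `s ≤ K R t`
    have hst : s (some p) i ≤ K * R p * t := by
      rw [ht]
      rcases le_total (s (some p) i) (1 / R p) with h | h
      · rw [min_eq_left h]
        have : 1 ≤ K * R p := by nlinarith
        nlinarith
      · rw [min_eq_right h]
        have : K * R p * (1 / R p) = K := by field_simp
        rw [this]; exact hsK p hp i
    calc X * s (some p) i ≤ X * (K * R p * t) := mul_le_mul_of_nonneg_left hst hX0
      _ = K * R p * (t * X) := by ring
      _ ≤ K * R p * p := mul_le_mul_of_nonneg_left htX (by positivity)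
      _ = K * p * R p := by ring
      _ ≤ ∑ p ∈ S, K * p * R p := by
          apply Finset.single_le_sum (f := fun p : ℕ => K * p * R p) _ hp
          intro q _
          have := hR1 q
          positivity
      _ ≤ _ := by linarith
  · intro x hx
    exact hBx x hx

/-- a positive lower bound of finitely many positive numbers -/
theorem pos_low {ι : Type} (F : Finset ι) (f : ι → ℝ) (hf : ∀ u ∈ F, 0 < f u) :
    ∃ ε : ℝ, 0 < ε ∧ ∀ u ∈ F, ε ≤ f u := by
  classical
  have h0 : 0 ≤ ∑ u ∈ F, 1 / f u := Finset.sum_nonneg fun u hu => (one_div_pos.2 (hf u hu)).le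
  refine ⟨1 / (1 + ∑ u ∈ F, 1 / f u), by positivity, fun u hu => ?_⟩
  have h1 : 1 / f u ≤ ∑ u ∈ F, 1 / f u :=
    Finset.single_le_sum (f := fun u => 1 / f u) (fun v hv => (one_div_pos.2 (hf v hv)).le) hu
  have h2 := hf u hu
  rw [div_le_iff₀ (by linarith)]
  have h3 : f u * (1 / f u) = 1 := by field_simp
  nlinarith

/-- rational approximation of an invertible matrix, at one prime -/
theorem approx1 {M : Type} [Field M] [NumberField M] {S : Finset ℕ} (P : PF S M) {N : ℕ}
    {p : ℕ} (hp : p ∈ S) (A : Matrix (Fin N) (Fin N) M) (hA : A.det ≠ 0)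
    (hRt : ∀ i j, Rt P (some p) (A i j)) (R ε : ℝ) (hR : 1 ≤ R)
    (hRA : ∀ i j, P.nv (some p) (A⁻¹ i j) ≤ R) (hε : 0 < ε) (hεR : R * ε < 1) :
    ∃ A' : Matrix (Fin N) (Fin N) ℚ, A'.det ≠ 0 ∧ (∀ i j, av (some p) (A'⁻¹ i j) ≤ R) ∧
      ∀ i j, P.nv (some p) (A i j - (A' i j : M)) ≤ ε := by
  classical
  have hv : some p ∈ plc S := mem_some hp
  choose f hf using fun i j => hRt i j ε hε
  obtain ⟨A', hA'⟩ : ∃ A' : Matrix (Fin N) (Fin N) ℚ,
      ∀ i j, P.nv (some p) (A i j - (A' i j : M)) < ε := ⟨Matrix.of f, hf⟩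
  set Am : Matrix (Fin N) (Fin N) M := A'.map (Rat.cast : ℚ → M) with hAm
  set E : Matrix (Fin N) (Fin N) M := A - Am with hE
  have hEle : ∀ i j, P.nv (some p) (E i j) ≤ ε := fun i j => (hA' i j).le
  have hu : IsUnit A.det := isUnit_iff_ne_zero.2 hA
  have hXle : ∀ i j, P.nv (some p) ((A⁻¹ * E) i j) ≤ R * ε := by
    intro i j
    rw [Matrix.mul_apply]
    refine P.sum_ult hp _ _ _ (by positivity) fun k _ => ?_
    rw [P.mul _ hv]
    exact mul_le_mul (hRA i k) (hEle k j) (P.nn _ _) (by linarith)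
  have hAmE : Am = A - E := by rw [hE]; abel
  have hdetm : Am.det ≠ 0 := by
    intro h0
    obtain ⟨v, hv0, hv1⟩ := Matrix.exists_mulVec_eq_zero_iff.2 h0
    have h1 : v = (A⁻¹ * E).mulVec v := by
      have h2 : A.mulVec v = E.mulVec v := by
        rw [hAmE, Matrix.sub_mulVec, sub_eq_zero] at hv1
        exact hv1
      rw [← Matrix.mulVec_mulVec, ← h2, Matrix.mulVec_mulVec, Matrix.nonsing_inv_mul _ hu,
        Matrix.one_mulVec]
    have hN : (Finset.univ : Finset (Fin N)).Nonempty := by
      by_contra hne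
      rw [Finset.not_nonempty_iff_eq_empty, Finset.univ_eq_empty_iff] at hne
      exact hv0 (funext fun i => hne.elim i)
    obtain ⟨i0, -, hi0⟩ := Finset.exists_max_image Finset.univ
      (fun i => P.nv (some p) (v i)) hN
    have h3 : 0 < P.nv (some p) (v i0) := by
      obtain ⟨i1, hi1⟩ := Function.ne_iff.1 hv0
      have := P.pos _ hv _ hi1
      exact this.trans_le (hi0 i1 (Finset.mem_univ _))
    have h4 : P.nv (some p) (v i0) ≤ (R * ε) * P.nv (some p) (v i0) := by
      calc P.nv (some p) (v i0) = P.nv (some p) ((A⁻¹ * E).mulVec v i0) := by rw [← h1]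
        _ ≤ (R * ε) * P.nv (some p) (v i0) := by
            simp only [Matrix.mulVec, dotProduct]
            refine P.sum_ult hp _ _ _ (by positivity) fun k _ => ?_
            rw [P.mul _ hv]
            exact mul_le_mul (hXle i0 k) (hi0 k (Finset.mem_univ _)) (P.nn _ _) (by positivity)
    nlinarith
  have hdetc : Am.det = ((A'.det : ℚ) : M) := by
    have := (Rat.castHom M).map_det A'
    simpa [hAm, RingHom.mapMatrix_apply] using this.symm
  have hdet' : A'.det ≠ 0 := by
    intro h0
    apply hdetm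
    rw [hdetc, h0, Rat.cast_zero]
  refine ⟨A', hdet', ?_, fun i j => (hA' i j).le⟩
  -- the inverse
  have hum : IsUnit Am.det := isUnit_iff_ne_zero.2 hdetm
  have hinv : Am⁻¹ = (A'⁻¹).map (Rat.cast : ℚ → M) := by
    apply Matrix.inv_eq_left_inv
    have h1 : (A'⁻¹) * A' = 1 :=
      Matrix.nonsing_inv_mul _ (isUnit_iff_ne_zero.2 hdet')
    have h2 := congrArg ((Rat.castHom M).mapMatrix (m := Fin N)) h1
    rw [map_mul, map_one] at h2
    exact h2
  have hYeq : Am⁻¹ = A⁻¹ + (A⁻¹ * E) * Am⁻¹ := by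
    have h1 : A * Am⁻¹ = 1 + E * Am⁻¹ := by
      have h2 : Am * Am⁻¹ = 1 := Matrix.mul_nonsing_inv _ hum
      have h3 : A = Am + E := by rw [hE]; abel
      rw [h3, Matrix.add_mul, h2]
    have h4 := congrArg (fun X => A⁻¹ * X) h1
    simp only [← Matrix.mul_assoc, Matrix.nonsing_inv_mul _ hu, Matrix.one_mul, Matrix.mul_add,
      Matrix.mul_one] at h4
    exact h4
  have hYle : ∀ i j, P.nv (some p) (Am⁻¹ i j) ≤ R := by
    intro i j
    -- maximal entry of the column
    have hN : (Finset.univ : Finset (Fin N)).Nonempty := ⟨i, Finset.mem_univ _⟩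
    obtain ⟨i0, -, hi0⟩ := Finset.exists_max_image Finset.univ
      (fun i => P.nv (some p) (Am⁻¹ i j)) hN
    refine (hi0 i (Finset.mem_univ _)).trans ?_
    by_contra hlt
    push Not at hlt
    have h1 : P.nv (some p) (Am⁻¹ i0 j) ≤
        max (P.nv (some p) (A⁻¹ i0 j)) (P.nv (some p) (((A⁻¹ * E) * Am⁻¹) i0 j)) := by
      have h2 := congrFun (congrFun hYeq i0) j
      rw [Matrix.add_apply] at h2
      calc P.nv (some p) (Am⁻¹ i0 j) = P.nv (some p) (A⁻¹ i0 j + ((A⁻¹ * E) * Am⁻¹) i0 j) := by
            rw [← h2]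
        _ ≤ _ := P.ult p hp _ _
    have h3 : P.nv (some p) (((A⁻¹ * E) * Am⁻¹) i0 j) ≤
        (R * ε) * P.nv (some p) (Am⁻¹ i0 j) := by
      rw [Matrix.mul_apply]
      refine P.sum_ult hp _ _ _ (mul_nonneg (by positivity) (P.nn _ _)) fun k _ => ?_
      rw [P.mul _ hv]
      exact mul_le_mul (hXle i0 k) (hi0 k (Finset.mem_univ _)) (P.nn _ _) (by positivity)
    have h4 : 0 < P.nv (some p) (Am⁻¹ i0 j) := by linarith
    rcases le_max_iff.1 h1 with h5 | h5
    · have := hRA i0 j
      linarith
    · nlinarith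
  intro i j
  have h1 := hYle i j
  rw [hinv, Matrix.map_apply, P.ext _ hv] at h1
  exact h1

theorem LATPM (hAV : ST_AV) : ST_LATPM := by
  classical
  intro M _ _ S P N A K hS hdet hRt hK
  have hAV' := hAV
  obtain ⟨av_nn, av_zero, hAV3⟩ := hAV'
  set R : ℕ → ℝ := fun p => 1 + ∑ i, ∑ j, P.nv (some p) ((A (some p))⁻¹ i j) with hR
  have hR1 : ∀ p, 1 ≤ R p := by
    intro p
    have : 0 ≤ ∑ i, ∑ j, P.nv (some p) ((A (some p))⁻¹ i j) :=
      Finset.sum_nonneg fun i _ => Finset.sum_nonneg fun j _ => P.nn _ _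
    simp only [hR]; linarith
  have hRle : ∀ p i j, P.nv (some p) ((A (some p))⁻¹ i j) ≤ R p := by
    intro p i j
    have h1 : P.nv (some p) ((A (some p))⁻¹ i j) ≤ ∑ j, P.nv (some p) ((A (some p))⁻¹ i j) :=
      Finset.single_le_sum (f := fun j => P.nv (some p) ((A (some p))⁻¹ i j))
        (fun j _ => P.nn _ _) (Finset.mem_univ j)
    have h2 : ∑ j, P.nv (some p) ((A (some p))⁻¹ i j) ≤
        ∑ i, ∑ j, P.nv (some p) ((A (some p))⁻¹ i j) :=
      Finset.single_le_sum (f := fun i => ∑ j, P.nv (some p) ((A (some p))⁻¹ i j))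
        (fun i _ => Finset.sum_nonneg fun j _ => P.nn _ _) (Finset.mem_univ i)
    simp only [hR]; linarith
  set C : ℝ := 1 + ∑ p ∈ S, K * p * R p with hC
  refine ⟨C, ?_, ?_⟩
  · have : 0 ≤ ∑ p ∈ S, K * p * R p := Finset.sum_nonneg fun p _ => by
      have := hR1 p
      positivity
    linarith
  intro s hs hsK
  have hsp : ∀ p ∈ S, ∀ i, 0 < s (some p) i := fun p hp i => hs _ (mem_some hp) i
  have hR2 : ∀ p, 0 < 4 * (R p * K) := fun p => by
    have := hR1 p
    positivity
  -- the precision
  obtain ⟨ε, hε0, hε⟩ := pos_low (insert (none : Option (ℕ × Fin N))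
    ((S ×ˢ (Finset.univ : Finset (Fin N))).image some))
    (fun u => match u with
      | none => 1 / (4 * (1 + ∑ p ∈ S, R p))
      | some u => s (some u.1) u.2 / (4 * (R u.1 * K))) (by
      intro u hu
      rcases u with _ | u
      · have h1 : 0 ≤ ∑ p ∈ S, R p := Finset.sum_nonneg fun p _ => by linarith [hR1 p]
        simp only
        positivity
      · simp only [Finset.mem_insert, reduceCtorEq, Finset.mem_image, Finset.mem_product,
          Finset.mem_univ, and_true, Option.some.injEq, exists_eq_right, false_or] at hu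
        exact div_pos (hsp _ hu _) (hR2 _))
  have hεR : ∀ p ∈ S, R p * ε < 1 := by
    intro p hp
    have h1 : ε ≤ 1 / (4 * (1 + ∑ p ∈ S, R p)) :=
      hε none (Finset.mem_insert_self _ _)
    have h2 : R p ≤ ∑ p ∈ S, R p :=
      Finset.single_le_sum (f := R) (fun q _ => by linarith [hR1 q]) hp
    have h3 := hR1 p
    have h4 : 0 < 4 * (1 + ∑ p ∈ S, R p) := by linarith
    rw [le_div_iff₀ h4] at h1
    nlinarith
  have hεs : ∀ p ∈ S, ∀ i, ε * (4 * (R p * K)) ≤ s (some p) i := by
    intro p hp i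
    have h1 : ε ≤ s (some p) i / (4 * (R p * K)) :=
      hε (some (p, i)) (Finset.mem_insert_of_mem (Finset.mem_image_of_mem _
        (Finset.mem_product.2 ⟨hp, Finset.mem_univ _⟩)))
    rwa [le_div_iff₀ (hR2 p)] at h1
  -- the rational matrices
  have hap : ∀ p : ℕ, ∃ A' : Matrix (Fin N) (Fin N) ℚ, A'.det ≠ 0 ∧
      (p ∈ S → (∀ i j, av (some p) (A'⁻¹ i j) ≤ R p) ∧
        ∀ i j, P.nv (some p) (A (some p) i j - (A' i j : M)) ≤ ε) := by
    intro p
    by_cases hp : p ∈ S
    · obtain ⟨A', h1, h2, h3⟩ := approx1 P hp (A (some p)) (hdet _ (mem_some hp))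
        (hRt _ (mem_some hp)) (R p) ε (hR1 p) (hRle p) hε0 (hεR p hp)
      exact ⟨A', h1, fun _ => ⟨h2, h3⟩⟩
    · exact ⟨1, by rw [Matrix.det_one]; exact one_ne_zero, fun h => absurd h hp⟩
  choose A1 hA1 hA2 using hap
  obtain ⟨B, hB0, hBS, hB1, hB2, hB3⟩ := LATPx hAV N S (fun v => match v with
    | none => 1
    | some p => A1 p) K hS (by
      intro v _
      rcases v with _ | p
      · simp
      · exact hA1 p) hK R hR1 (fun p hp => (hA2 p hp).1) s hs hsK
  simp only at hB1 hB2 hB3
  -- comparison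
  set E : ∀ p : ℕ, Matrix (Fin N) (Fin N) M := fun p =>
    A (some p) - (A1 p).map (Rat.cast : ℚ → M) with hE
  have hEle : ∀ p ∈ S, ∀ i j, P.nv (some p) (E p i j) ≤ ε := fun p hp i j => (hA2 p hp).2 i j
  have hAE : ∀ p, A (some p) = (A1 p).map (Rat.cast : ℚ → M) + E p := fun p => by
    rw [hE]; simp
  have hεs' : ∀ p ∈ S, ∀ i, ε ≤ s (some p) i := by
    intro p hp i
    have h1 := hεs p hp i
    have h2 := hR1 p
    have h3 : 1 ≤ 4 * (R p * K) := by nlinarith
    nlinarith
  have hcast : ∀ (W : Matrix (Fin N) (Fin N) ℚ),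
      (W * mQ B).map (Rat.cast : ℚ → M) = W.map (Rat.cast : ℚ → M) * mM M B := by
    intro W
    ext i j
    simp [Matrix.mul_apply, Matrix.map_apply]
  refine ⟨B, hB0, hBS, ?_, ?_, ?_⟩
  · intro p hp i k
    have h1 : (A (some p) * mM M B) i k =
        (((A1 p * mQ B) i k : ℚ) : M) + (E p * mM M B) i k := by
      rw [hAE p, Matrix.add_mul, Matrix.add_apply, ← hcast, Matrix.map_apply]
    rw [h1]
    refine (P.ult p hp _ _).trans (max_le ?_ ?_)
    · rw [P.ext _ (mem_some hp)]
      exact hB1 p hp i k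
    · refine le_trans ?_ (hεs' p hp i)
      rw [Matrix.mul_apply]
      refine P.sum_ult hp _ _ _ hε0.le fun j _ => ?_
      rw [P.mul _ (mem_some hp)]
      calc P.nv (some p) (E p i j) * P.nv (some p) ((B j k : ℤ) : M)
          ≤ ε * 1 := mul_le_mul (hEle p hp i j) (P.int_le hAV hS hp _) (P.nn _ _) hε0.le
        _ = ε := mul_one _
  · intro p hp k i
    have hv := mem_some hp
    have hdA : IsUnit (A (some p)).det := isUnit_iff_ne_zero.2 (hdet _ hv)
    have hdB : (mM M B).det ≠ 0 := by
      rw [mM_det]; exact_mod_cast hB0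
    have hAB : ((A (some p)) * mM M B).det ≠ 0 := by
      rw [Matrix.det_mul]; exact mul_ne_zero (hdet _ hv) hdB
    set A1m : Matrix (Fin N) (Fin N) M := (A1 p).map (Rat.cast : ℚ → M) with hA1m
    have hA1i : ((A1 p)⁻¹).map (Rat.cast : ℚ → M) * A1m = 1 := by
      have h1 : (A1 p)⁻¹ * (A1 p) = 1 :=
        Matrix.nonsing_inv_mul _ (isUnit_iff_ne_zero.2 (hA1 p))
      have h2 := congrArg ((Rat.castHom M).mapMatrix (m := Fin N)) h1
      rw [map_mul, map_one] at h2
      exact h2
    set V := ((A (some p)) * mM M B)⁻¹ with hV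
    have hVAB : V * ((A (some p)) * mM M B) = 1 :=
      Matrix.nonsing_inv_mul _ (isUnit_iff_ne_zero.2 hAB)
    set Z := E p * ((A1 p)⁻¹).map (Rat.cast : ℚ → M) with hZ
    set W : Matrix (Fin N) (Fin N) M := ((A1 p * mQ B)⁻¹).map (Rat.cast : ℚ → M) with hW
    -- `V (1 + Z) = W`
    have hWeq : W = V + V * Z := by
      have hdQ : (A1 p * mQ B).det ≠ 0 := by
        rw [Matrix.det_mul]
        refine mul_ne_zero (hA1 p) ?_
        have : (mQ B).det = ((B.det : ℤ) : ℚ) := by rw [Int.cast_det]
        rw [this]; exact_mod_cast hB0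
      have h1 : (A1m * mM M B) * W = 1 := by
        have h2 : (A1 p * mQ B) * (A1 p * mQ B)⁻¹ = 1 :=
          Matrix.mul_nonsing_inv _ (isUnit_iff_ne_zero.2 hdQ)
        have h3 := congrArg ((Rat.castHom M).mapMatrix (m := Fin N)) h2
        rw [map_mul, map_one] at h3
        have h4 : ((Rat.castHom M).mapMatrix (m := Fin N)) (A1 p * mQ B) = A1m * mM M B :=
          hcast (A1 p)
        rw [h4] at h3
        exact h3
      have h5 : (1 + Z) * A1m = A (some p) := by
        rw [Matrix.add_mul, Matrix.one_mul, hZ, Matrix.mul_assoc, hA1i, Matrix.mul_one, hAE p]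
      have h6 : V * ((1 + Z) * (A1m * mM M B)) = 1 := by
        rw [← Matrix.mul_assoc (1 + Z), h5]; exact hVAB
      calc W = (V * ((1 + Z) * (A1m * mM M B))) * W := by rw [h6, Matrix.one_mul]
        _ = V * (1 + Z) * ((A1m * mM M B) * W) := by
            simp only [Matrix.mul_assoc]
        _ = V + V * Z := by rw [h1, Matrix.mul_one, Matrix.mul_add, Matrix.mul_one]
    have hZle : ∀ i j, P.nv (some p) (Z i j) ≤ ε * R p := by
      intro i j
      rw [hZ, Matrix.mul_apply]
      refine P.sum_ult hp _ _ _ (by have := hR1 p; positivity) fun l _ => ?_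
      rw [P.mul _ hv, Matrix.map_apply, P.ext _ hv]
      exact mul_le_mul (hEle p hp i l) ((hA2 p hp).1 l j) (av_nn _ _) hε0.le
    -- the largest weighted entry of the row
    have hN : (Finset.univ : Finset (Fin N)).Nonempty := ⟨i, Finset.mem_univ _⟩
    obtain ⟨i0, -, hi0⟩ := Finset.exists_max_image Finset.univ
      (fun i => P.nv (some p) (V k i) * s (some p) i) hN
    refine (hi0 i (Finset.mem_univ _)).trans ?_
    by_contra hlt
    push Not at hlt
    set y : ℝ := P.nv (some p) (V k i0) * s (some p) i0 with hy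
    have hC1 : 1 ≤ C := by
      have : 0 ≤ ∑ p ∈ S, K * p * R p := Finset.sum_nonneg fun p _ => by
        have := hR1 p
        positivity
      linarith
    have hypos : 0 < y := by linarith
    have h1 : V k i0 = W k i0 - (V * Z) k i0 := by
      rw [hWeq, Matrix.add_apply]; ring
    have h2 : P.nv (some p) (V k i0) ≤
        max (P.nv (some p) (W k i0)) (P.nv (some p) ((V * Z) k i0)) := by
      calc P.nv (some p) (V k i0) = P.nv (some p) (W k i0 + -((V * Z) k i0)) := by
            rw [h1, sub_eq_add_neg]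
        _ ≤ _ := by
            refine (P.ult p hp _ _).trans ?_
            rw [P.neg hv]
    have hs0 := hsp p hp i0
    rcases le_max_iff.1 h2 with h3 | h3
    · have h4 : y ≤ P.nv (some p) (W k i0) * s (some p) i0 :=
        mul_le_mul_of_nonneg_right h3 hs0.le
      have h5 := hB2 p hp k i0
      rw [hW, Matrix.map_apply, P.ext _ hv] at h4
      linarith
    · -- `nv (V k j) ≤ y / s_j`
      have h4 : P.nv (some p) ((V * Z) k i0) * s (some p) i0 ≤ y / 4 := by
        have h5 : P.nv (some p) ((V * Z) k i0) ≤ y / 4 / s (some p) i0 := by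
          rw [Matrix.mul_apply]
          refine P.sum_ult hp _ _ _ (by positivity) fun j _ => ?_
          rw [P.mul _ hv]
          have h6 := hi0 j (Finset.mem_univ _)
          have hsj := hsp p hp j
          have h7 := hεs p hp j
          have h8 := hsK p hp i0
          have h9 := hZle j i0
          have h10 := hR1 p
          rw [le_div_iff₀ hs0]
          have h11 : P.nv (some p) (V k j) ≤ y / s (some p) j := by
            rw [le_div_iff₀ hsj]; exact h6
          calc P.nv (some p) (V k j) * P.nv (some p) (Z j i0) * s (some p) i0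
              ≤ (y / s (some p) j) * (ε * R p) * K := by
                refine mul_le_mul (mul_le_mul h11 h9 (P.nn _ _) (by positivity)) h8 hs0.le ?_
                positivity
            _ = (ε * (4 * (R p * K))) * (y / (4 * s (some p) j)) := by
                field_simp
            _ ≤ s (some p) j * (y / (4 * s (some p) j)) :=
                mul_le_mul_of_nonneg_right h7 (by positivity)
            _ = y / 4 := by field_simp
        calc P.nv (some p) ((V * Z) k i0) * s (some p) i0
            ≤ (y / 4 / s (some p) i0) * s (some p) i0 := mul_le_mul_of_nonneg_right h5 hs0.le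
          _ = y / 4 := by field_simp
      have h5 : y ≤ P.nv (some p) ((V * Z) k i0) * s (some p) i0 :=
        mul_le_mul_of_nonneg_right h3 hs0.le
      linarith
  · intro x hx
    apply hB3
    intro p hp i
    have hv := mem_some hp
    have h1 : (((A1 p).mulVec (cv x) i : ℚ) : M) =
        (A (some p)).mulVec (cM x) i + -((E p).mulVec (cM x) i) := by
      rw [hAE p, Matrix.add_mulVec, Pi.add_apply]
      simp [Matrix.mulVec, dotProduct, cv, cM, Matrix.map_apply]
    rw [← P.ext _ hv, h1]
    refine (P.ult p hp _ _).trans (max_le (hx p hp i) ?_)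
    rw [P.neg hv]
    refine le_trans ?_ (hεs' p hp i)
    simp only [Matrix.mulVec, dotProduct, cM]
    refine P.sum_ult hp _ _ _ hε0.le fun j _ => ?_
    rw [P.mul _ hv]
    calc P.nv (some p) (E p i j) * P.nv (some p) ((x j : ℤ) : M)
        ≤ ε * 1 := mul_le_mul (hEle p hp i j) (P.int_le hAV hS hp _) (P.nn _ _) hε0.le
      _ = ε := mul_one _

end Pool.Agent.Helper26.SUBK
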