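import Pool.Agent.Helper77.SUBK.SheetP
import Pool.Agent.Helper26.SUB.SPAN

/-!
Project SUBK, row SPANM: first consequences of `GHypM` and `BasM`.
-/

set_option autoImplicit false

namespace Pool.Agent.Helper26.SUBK

open Finset Matrix Pool.Agent.Helper70.SUB Pool.Agent.Helper77.SUBK
open Pool.Agent.Helper26.SUB (prim_ne mQ_det)

/-- the value `h · x` as a pairing of forms -/
theorem pairM {M : Type} [Field M] [NumberField M] {N : ℕ} (A : Matrix (Fin N) (Fin N) M)
    (hA : A.det ≠ 0) (h x : Fin N → ℤ) :
    ((∑ i, h i * x i : ℤ) : M) = ∑ i, ((A⁻¹)ᵀ.mulVec (cM h)) i * (A.mulVec (cM x)) i := by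
  have hu : IsUnit A.det := isUnit_iff_ne_zero.2 hA
  have h1 : ((A⁻¹)ᵀ.mulVec (cM h)) ⬝ᵥ (A.mulVec (cM x)) = cM h ⬝ᵥ cM x := by
    rw [Matrix.mulVec_transpose, ← Matrix.dotProduct_mulVec, Matrix.mulVec_mulVec,
      Matrix.nonsing_inv_mul _ hu, Matrix.one_mulVec]
  simp only [dotProduct, cM] at h1
  push_cast
  exact h1.symm

theorem SPANM (hAV : ST_AV) (hCOEFM : ST_COEFM) : ST_SPANM := by
  classical
  intro M _ _ S P k A C hk hS hA hC
  obtain ⟨h0, h1, h2⟩ := hAV
  obtain ⟨hpos, hmul, hadd, hmax, hint, hz, hpr, hpr1, hsum⟩ := h2 S hS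
  set V : ℕ := (plc S).card with hV
  have hnone : none ∈ plc S := by simp [plc]
  have hVpos : 1 ≤ V := Finset.card_pos.2 ⟨none, hnone⟩
  have hk' : (1 : ℝ) ≤ (k : ℝ) + 1 := by
    have : (0 : ℝ) ≤ k := Nat.cast_nonneg _
    linarith
  set K : ℝ := ((k : ℝ) + 1) * C with hK
  have hK1 : 1 ≤ K := by
    simp only [hK]
    nlinarith
  have hKC : C ≤ K := by
    simp only [hK]
    nlinarith
  have hCV : 1 ≤ C ^ V := one_le_pow₀ hC
  refine ⟨K ^ 2 + C ^ V, by nlinarith, ?_⟩
  intro s μ ν h B lam hG hB hμν
  have hμ : 0 < μ := hG.mupos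
  have hν : 0 < ν := hG.nupos
  have hCpos : 0 < C := by linarith
  have hspos := hG.spos
  have hC'1 : K ≤ K ^ 2 + C ^ V := by nlinarith
  set last : Fin (k + 1) := Fin.last k with hlast
  let k1 : Fin (k + 1) := ⟨k - 1, by omega⟩
  have hBu : IsUnit (mQ B).det := by
    rw [mQ_det]
    exact isUnit_iff_ne_zero.2 (by exact_mod_cast hB.det_ne)
  -- (1)
  have hlam1 : lam k1 ≤ K * μ := by
    by_contra hcon
    push Not at hcon
    have key : ∀ l : Fin (k + 1), k - 1 ≤ (l : ℕ) →
        ∃ c : ℚ, ∀ i, (mQ B)⁻¹ l i = c * h i := by
      intro l hl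
      apply hG.ann
      intro x hx
      obtain ⟨z, hzx⟩ := hB.mem x (fun p hp i => by
        have := hx (some p) (by simpa [plc] using hp) i
        simpa using this)
      have hcoef := hCOEFM M S P (k + 1) A s C B lam hS hA hspos hB z μ (fun i => by
        have := hx none hnone i
        rw [hzx] at this
        simpa using this) l
      have hzl : z l = 0 := by
        by_contra hne
        have h3 : (1 : ℝ) ≤ |(z l : ℝ)| := by
          have := Int.one_le_abs hne
          exact_mod_cast this
        have h4 : lam k1 ≤ lam l := hB.mono (by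
          rw [Fin.le_def]
          exact hl)
        have h5 : lam l ≤ |(z l : ℝ)| * lam l := by
          have := hB.pos l
          nlinarith
        have h6 : ((k + 1 : ℕ) : ℝ) * C * μ = K * μ := by
          rw [hK]
          push_cast
          ring
        rw [h6] at hcoef
        linarith
      have h7 : cv x = (mQ B).mulVec (cv z) := by
        funext i
        rw [hzx]
        simp [cv, Matrix.mulVec, dotProduct]
      have h8 : ((mQ B)⁻¹).mulVec (cv x) = cv z := by
        rw [h7, Matrix.mulVec_mulVec, Matrix.nonsing_inv_mul _ hBu, Matrix.one_mulVec]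
      have h9 := congrFun h8 l
      simp only [Matrix.mulVec, dotProduct, cv] at h9
      rw [h9, hzl]
      simp
    obtain ⟨c1, hc1⟩ := key k1 (by simp [k1])
    obtain ⟨c2, hc2⟩ := key last (by simp [last])
    have hne : k1 ≠ last := by
      intro he
      have := congrArg Fin.val he
      simp [k1, last] at this
      omega
    -- rows k1 and last are independent
    have hmul1 : (mQ B)⁻¹ * (mQ B) = 1 := Matrix.nonsing_inv_mul _ hBu
    have e11 : c1 * ∑ i, (h i : ℚ) * (mQ B) i k1 = 1 := by
      have := congrFun (congrFun hmul1 k1) k1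
      rw [Matrix.mul_apply, Matrix.one_apply_eq] at this
      rw [← this, Finset.mul_sum]
      refine Finset.sum_congr rfl fun i _ => ?_
      rw [hc1]
      ring
    have e12 : c2 * ∑ i, (h i : ℚ) * (mQ B) i k1 = 0 := by
      have := congrFun (congrFun hmul1 last) k1
      rw [Matrix.mul_apply, Matrix.one_apply_ne hne.symm] at this
      rw [← this, Finset.mul_sum]
      refine Finset.sum_congr rfl fun i _ => ?_
      rw [hc2]
      ring
    have e22 : c2 * ∑ i, (h i : ℚ) * (mQ B) i last = 1 := by
      have := congrFun (congrFun hmul1 last) last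
      rw [Matrix.mul_apply, Matrix.one_apply_eq] at this
      rw [← this, Finset.mul_sum]
      refine Finset.sum_congr rfl fun i _ => ?_
      rw [hc2]
      ring
    have hs0 : ∑ i, (h i : ℚ) * (mQ B) i k1 ≠ 0 := by
      intro h'
      rw [h'] at e11
      simp at e11
    have hc20 : c2 = 0 := by
      rcases mul_eq_zero.1 e12 with h' | h'
      · exact h'
      · exact absurd h' hs0
    rw [hc20] at e22
    simp at e22
  have hlam : ∀ l : Fin (k + 1), (l : ℕ) < k → lam l ≤ K * μ := by
    intro l hl
    refine (hB.mono ?_).trans hlam1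
    rw [Fin.le_def]
    show (l : ℕ) ≤ k - 1
    omega
  -- (2)
  obtain ⟨t, ht, htb, htp⟩ := hG.dual
  have hprod0 : 0 ≤ ∏ v ∈ plc S, t v := Finset.prod_nonneg fun v hv => (ht v hv).le
  have hval : ∀ l : Fin (k + 1), (∑ i, h i * B i l) ≠ 0 → 1 ≤ K * lam l * (1 / ν) := by
    intro l hne
    have h3 := hpr _ hne
    have hcol : ∀ v, (A v).mulVec (cM fun i => B i l) = fun i => (A v * mM M B) i l := by
      intro v
      funext i
      simp [Matrix.mulVec, dotProduct, cM, Matrix.mul_apply]
    have hbd : ∀ v ∈ plc S, av v ((∑ i, h i * B i l : ℤ) : ℚ)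
        ≤ (if v = none then K * lam l else 1) * t v := by
      intro v hv
      rw [← P.intCast hv, pairM (A v) (hA v hv) h (fun i => B i l), hcol v]
      have hb0 : 0 ≤ (if v = none then C * lam l else 1) * t v := by
        have := ht v hv
        have := hB.pos l
        split_ifs <;> positivity
      have h4 := P.sum_bd hv Finset.univ
        (fun i => ((A v)⁻¹)ᵀ.mulVec (cM h) i * (A v * mM M B) i l)
        ((if v = none then C * lam l else 1) * t v) hb0 (fun i _ => by
          rw [P.mul v hv]
          have h5 := htb v hv i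
          have hsp := hspos v hv i
          have h6 : P.nv v ((A v * mM M B) i l) ≤ s v i * (if v = none then C * lam l else 1) := by
            rcases v with _ | p
            · have := hB.inf_le i l
              simp only [if_true]
              calc _ ≤ _ := this
                _ = _ := by ring
            · have := hB.fin_le p (by simpa [plc] using hv) i l
              simpa using this
          have hw0 := P.nn v (((A v)⁻¹)ᵀ.mulVec (cM h) i)
          have hf0 : 0 ≤ (if v = none then C * lam l else 1 : ℝ) := by
            have := hB.pos l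
            split_ifs <;> positivity
          calc P.nv v (((A v)⁻¹)ᵀ.mulVec (cM h) i) * P.nv v ((A v * mM M B) i l)
              ≤ P.nv v (((A v)⁻¹)ᵀ.mulVec (cM h) i) *
                (s v i * (if v = none then C * lam l else 1)) :=
                mul_le_mul_of_nonneg_left h6 hw0
            _ = (P.nv v (((A v)⁻¹)ᵀ.mulVec (cM h) i) * s v i) *
                (if v = none then C * lam l else 1) := by ring
            _ ≤ t v * (if v = none then C * lam l else 1) :=
                mul_le_mul_of_nonneg_right h5 hf0
            _ = _ := by ring)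
      refine h4.trans (le_of_eq ?_)
      rw [Finset.card_univ, Fintype.card_fin]
      split_ifs
      · rw [hK]
        push_cast
        ring
      · ring
    have h5 : ∏ v ∈ plc S, av v ((∑ i, h i * B i l : ℤ) : ℚ)
        ≤ ∏ v ∈ plc S, (if v = none then K * lam l else 1) * t v :=
      Finset.prod_le_prod (fun v _ => h0 _ _) hbd
    rw [Finset.prod_mul_distrib, Finset.prod_ite_eq' (plc S) none (fun _ => K * lam l),
      if_pos hnone] at h5
    have h6 : 0 ≤ K * lam l := by
      have := hB.pos l
      positivity
    exact (h3.trans h5).trans (mul_le_mul_of_nonneg_left htp h6)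
  have hort : ∀ l : Fin (k + 1), (l : ℕ) < k → ∑ i, h i * B i l = 0 := by
    intro l hl
    by_contra hne
    have h3 := hval l hne
    have h4 := hlam l hl
    have h5 : K * lam l * (1 / ν) ≤ K * (K * μ) * (1 / ν) := by
      refine mul_le_mul_of_nonneg_right (mul_le_mul_of_nonneg_left h4 (by linarith)) ?_
      positivity
    have h6 : K * (K * μ) * (1 / ν) < 1 := by
      rw [mul_one_div, div_lt_one hν]
      have : K * (K * μ) ≤ (K ^ 2 + C ^ V) * μ := by nlinarith
      linarith
    linarith
  -- (3)
  set g : ℤ := ∑ i, h i * B i last with hg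
  have hhne : h ≠ 0 := prim_ne hG.prim
  have hBT : ((mQ B)ᵀ).mulVec (cv h) = fun l => if l = last then (g : ℚ) else 0 := by
    funext l
    have h3 : ((mQ B)ᵀ).mulVec (cv h) l = ((∑ i, h i * B i l : ℤ) : ℚ) := by
      simp only [Matrix.mulVec, dotProduct, cv, Matrix.transpose_apply, Matrix.map_apply]
      push_cast
      refine Finset.sum_congr rfl fun i _ => by ring
    rw [h3]
    split_ifs with hl
    · rw [hl]
    · rw [hort l (by
        have h4 := l.is_lt
        have h5 : (l : ℕ) ≠ k := fun he => hl (Fin.ext he)
        omega)]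
      simp
  have hBTu : IsUnit ((mQ B)ᵀ).det := by rw [Matrix.det_transpose]; exact hBu
  have hBTM : ((mM M B)ᵀ).mulVec (cM h) = fun l => if l = last then (g : M) else 0 := by
    funext l
    have h3 : ((mM M B)ᵀ).mulVec (cM h) l = ((∑ i, h i * B i l : ℤ) : M) := by
      simp only [Matrix.mulVec, dotProduct, cM, Matrix.transpose_apply, Matrix.map_apply]
      push_cast
      refine Finset.sum_congr rfl fun i _ => by ring
    rw [h3]
    split_ifs with hl
    · rw [hl]
    · rw [hort l (by
        have h4 := l.is_lt
        have h5 : (l : ℕ) ≠ k := fun he => hl (Fin.ext he)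
        omega)]
      simp
  have hBTuM : IsUnit ((mM M B)ᵀ).det := by
    rw [Matrix.det_transpose, mM_det]
    exact isUnit_iff_ne_zero.2 (by exact_mod_cast hB.det_ne)
  have hgne : g ≠ 0 := by
    intro hg0
    apply hhne
    have h3 : ((mQ B)ᵀ).mulVec (cv h) = 0 := by
      rw [hBT, hg0]
      funext l
      simp
    have h4 : cv h = 0 := by
      have h5 := congrArg (((mQ B)ᵀ)⁻¹).mulVec h3
      rw [Matrix.mulVec_mulVec, Matrix.nonsing_inv_mul _ hBTu, Matrix.one_mulVec,
        Matrix.mulVec_zero] at h5
      exact h5
    funext i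
    have := congrFun h4 i
    simp only [cv, Pi.zero_apply] at this
    exact_mod_cast this
  have hgS : ∀ q : ℕ, q.Prime → (q : ℤ) ∣ g → q ∈ S := by
    intro q hq hqg
    apply hB.det_S q hq
    by_contra hnd
    -- q divides all coordinates of h
    have h3 : ∀ i, (q : ℤ) ∣ h i := by
      intro i
      have h4 : (B.det : ℤ) * h i = ∑ l, (B.adjugate)ᵀ i l * (if l = last then g else 0) := by
        have h5 : (Bᵀ).mulVec h = fun l => if l = last then g else 0 := by
          funext l
          have h6 : (Bᵀ).mulVec h l = ∑ i, h i * B i l := by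
            simp only [Matrix.mulVec, dotProduct, Matrix.transpose_apply]
            exact Finset.sum_congr rfl fun i _ => by ring
          rw [h6]
          split_ifs with hl
          · rw [hl]
          · exact hort l (by
              have h4 := l.is_lt
              have h5 : (l : ℕ) ≠ k := fun he => hl (Fin.ext he)
              omega)
        have h7 := congrArg ((B.adjugate)ᵀ).mulVec h5
        rw [Matrix.mulVec_mulVec, ← Matrix.transpose_mul, Matrix.mul_adjugate,
          Matrix.transpose_smul, Matrix.transpose_one, Matrix.smul_mulVec, Matrix.one_mulVec] at h7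
        have h8 := congrFun h7 i
        simpa [Matrix.mulVec, dotProduct] using h8
      have h9 : (q : ℤ) ∣ B.det * h i := by
        rw [h4]
        refine Finset.dvd_sum fun l _ => ?_
        split_ifs
        · exact Dvd.dvd.mul_left hqg _
        · simp
      rcases (Nat.prime_iff_prime_int.1 hq).dvd_or_dvd h9 with h' | h'
      · exact absurd h' hnd
      · exact h'
    have h10 := hG.prim q h3
    exact (Nat.prime_iff_prime_int.1 hq).not_isUnit h10
  have hgprod := hpr1 g hgne hgS
  refine ⟨fun l hl => ⟨(hlam l hl).trans (mul_le_mul_of_nonneg_right hC'1 hμ.le), hort l hl⟩,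
    ?_, ?_⟩
  · have h3 := hval last hgne
    rw [mul_one_div, le_div_iff₀ hν] at h3
    have h4 := hB.pos last
    calc ν = 1 * ν := (one_mul _).symm
      _ ≤ K * lam last := h3
      _ ≤ (K ^ 2 + C ^ V) * lam last := mul_le_mul_of_nonneg_right hC'1 h4.le
  · have hL := hB.pos last
    refine ⟨fun v => av v g * (if v = none then C / lam last else C), fun v hv => ?_,
      fun v hv i => ?_, ?_⟩
    · have h3 := hpos v hv (g : ℚ) (by exact_mod_cast hgne)
      have h4 : (0 : ℝ) < (if v = none then C / lam last else C) := by
        split_ifs <;> positivity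
      exact mul_pos h3 h4
    · have hAu : IsUnit (A v).det := isUnit_iff_ne_zero.2 (hA v hv)
      have h3 : ((A v)⁻¹)ᵀ.mulVec (cM h) i = (g : M) * ((A v * mM M B)⁻¹) last i := by
        have h4 : cM h = (((mM M B)ᵀ)⁻¹).mulVec (fun l => if l = last then (g : M) else 0) := by
          rw [← hBTM, Matrix.mulVec_mulVec, Matrix.nonsing_inv_mul _ hBTuM, Matrix.one_mulVec]
        rw [h4, Matrix.mulVec_mulVec, Matrix.mul_inv_rev, ← Matrix.transpose_nonsing_inv,
          ← Matrix.transpose_mul]
        simp [Matrix.mulVec, dotProduct, mul_comm]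
      rw [h3, P.mul v hv, P.intCast hv, mul_assoc]
      refine mul_le_mul_of_nonneg_left ?_ (h0 _ _)
      rcases v with _ | p
      · have h5 := hB.inf_inv last i
        simp only [if_true]
        rw [le_div_iff₀ hL]
        calc _ = _ := by ring
          _ ≤ C := h5
      · have h5 := hB.fin_inv p (by simpa [plc] using hv) last i
        simpa using h5
    · rw [Finset.prod_mul_distrib, hgprod, one_mul]
      have h3 : ∀ v ∈ plc S, (if v = none then C / lam last else C)
          = C * (if v = none then (lam last)⁻¹ else 1) := by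
        intro v _
        split_ifs
        · rw [div_eq_mul_inv]
        · rw [mul_one]
      rw [Finset.prod_congr rfl h3, Finset.prod_mul_distrib, Finset.prod_const,
        Finset.prod_ite_eq' (plc S) none (fun _ => (lam last)⁻¹), if_pos hnone, ← hV,
        ← div_eq_mul_inv]
      refine div_le_div_of_nonneg_right ?_ hL.le
      nlinarith [sq_nonneg K]

end Pool.Agent.Helper26.SUBK
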